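import Mathlib
import Pool.Agent.V11283.FK.Cayley
import Pool.Agent.Results.MP_257582_lc.DisjointCopies

set_option autoImplicit false

/-!
# A criterion by regular graphs, and factors (MP_257582_lc)

Let `1 ≤ k < n` and let `P` be a monotone isomorphism-invariant property of graphs on `n` vertices
that holds for the vertex-transitive `k`-regular graphs and fails for the vertex-transitive graphs
that are regular of degree `k - 1` or, if `n - k` is odd, `k - 2`. Suppose that `k` is even; or that
`P` holds for the vertex-transitive `(k + 1)`-regular graphs; or that `P` holds for all `k`-regular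
graphs and either no odd divisor of `n` is larger than `k`, or `n` is even and `P` fails for the
vertex-transitive graphs with components of odd order. Then `P` is evasive (`result`).

Consequently, for all `1 ≤ k < n` with `k n` even, the property of having a `k`-factor is evasive
(`factors`; the case of odd `k` is not covered by `RegularDegrees.result`, since for even `d ≥ k` some
vertex-transitive `d`-regular graphs have a `k`-factor and others have none). More generally let `D`
be a set of degrees and `m` a number. The property of having a subgraph with at least `m` edges, all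
of whose degrees lie in `D`, is evasive whenever, for some `1 ≤ k < n` with `k ∈ D` and `2 m ≤ k n`,
every `d ∈ D` with `d < k` has `d n < 2 m`, and one of the following holds: `k` is even; `k + 1 ∈ D`;
no odd divisor of `n` is larger than `k`; or `n` is even and all elements of `D` are odd
(`subgraphs`).

Proof. In the first cases membership of the Cayley graph of an abelian group of order `n` is decided
by its degree, because a symmetric connection set of size at least `k` contains one of size `k` or, if
`k` is odd, of size `k + 1`, and one of size less than `k` is contained in one of size `k - 1` or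
`k - 2`; so `Pool.Agent.W332.Kd.no_GP` applies. If `k ≥ 3` is odd and `n` is even, and `P` holds for
the `k`-regular graphs and fails for the graphs with components of odd order, then the members among
the Cayley graphs of the cyclic group of order `n` are those of degree at least `k` whose connection
set contains an element of even order (remove the edges of a symmetric set and every second edge of
the cycles of an element of even order), and the signed sum of the values is, up to sign,
`C(N, r) - C(M - 1, r)` or `C(N, r)`, where `n = 2 N + 2`, `k = 2 r + 1`, and `2 M + 1` is the odd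
part of `n`. This does not vanish. For `k = 1` the property holds for a perfect matching and
`DisjointCopies.result` applies.
-/

namespace Pool.Agent.Results.MP_257582_lc.DegreeFactors

open Finset
open Pool.Agent.W332.Kd Pool.Agent.H119R2.Kp Pool.Agent.V11283.FK

/-- Any two vertices are exchanged by an automorphism. -/
def VertexTransitive {n : ℕ} (G : SimpleGraph (Fin n)) : Prop :=
  ∀ u v : Fin n, ∃ φ : G ≃g G, φ u = v

/-- Every vertex has exactly `d` neighbours. -/
def RegularOfDegree {n : ℕ} (G : SimpleGraph (Fin n)) (d : ℕ) : Prop :=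
  ∀ v : Fin n, (G.neighborSet v).ncard = d

/-- `G` has a (spanning) subgraph with at least `m` edges, all of whose degrees lie in `D`. -/
def HasSubgraph {n : ℕ} (D : Set ℕ) (m : ℕ) (G : SimpleGraph (Fin n)) : Prop :=
  ∃ F : SimpleGraph (Fin n), F ≤ G ∧ (∀ v : Fin n, (F.neighborSet v).ncard ∈ D) ∧
    m ≤ F.edgeSet.ncard

/-- `G` has an `[a, b]`-factor: a spanning subgraph with all degrees at least `a` and at most `b`
(a `k`-factor for `a = b = k`). -/
def HasFactor {n : ℕ} (a b : ℕ) (G : SimpleGraph (Fin n)) : Prop :=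
  ∃ F : SimpleGraph (Fin n), F ≤ G ∧
    ∀ v : Fin n, a ≤ (F.neighborSet v).ncard ∧ (F.neighborSet v).ncard ≤ b

/-- `P` is evasive: every strategy that has asked only `n.choose 2 - 1` pairs has left some pair of
graphs, agreeing on all pairs asked, of which one has the property `P` and the other has not. -/
def Evasive (n : ℕ) (P : SimpleGraph (Fin n) → Prop) : Prop :=
  ∀ s : Finset (Sym2 (Fin n)) → SimpleGraph (Fin n) → Sym2 (Fin n),
    (∀ (Q : Finset (Sym2 (Fin n))) (G H : SimpleGraph (Fin n)),
        (∀ e ∈ Q, (e ∈ G.edgeSet ↔ e ∈ H.edgeSet)) → s Q G = s Q H) →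
    ∃ G H : SimpleGraph (Fin n),
      (∀ e ∈ (fun Q : Finset (Sym2 (Fin n)) => insert (s Q G) Q)^[n.choose 2 - 1]
            (∅ : Finset (Sym2 (Fin n))),
          (e ∈ G.edgeSet ↔ e ∈ H.edgeSet)) ∧ P G ∧ ¬ P H

theorem evasive_of_not_GP {n : ℕ} (P : SimpleGraph (Fin n) → Prop)
    (hmono : ∀ G H : SimpleGraph (Fin n), G ≤ H → P G → P H)
    (hiso : ∀ (σ : Fin n ≃ Fin n) (G : SimpleGraph (Fin n)), P G → P (G.map σ.toEmbedding))
    (h : ¬ Pool.Agent.H119R2.Kp.GP n (n.choose 2 - 1) P) : Evasive n P := by
  intro σ hσ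
  by_contra hcon
  refine h ⟨hmono, hiso, Pool.Agent.H119R2.Kp.dec_of_strategy _ P σ hσ fun G H hGH hPG => ?_⟩
  by_contra hPH
  exact hcon ⟨G, H, hGH, hPG, hPH⟩

/-- The general criterion. -/
theorem criterion (n k : ℕ) (hk : 1 ≤ k) (hkn : k < n) (P : SimpleGraph (Fin n) → Prop)
    (hmono : ∀ G H : SimpleGraph (Fin n), G ≤ H → P G → P H)
    (hiso : ∀ (σ : Fin n ≃ Fin n) (G : SimpleGraph (Fin n)), P G → P (G.map σ.toEmbedding))
    (hin : ∀ G : SimpleGraph (Fin n), VertexTransitive G → RegularOfDegree G k → P G)
    (hin' : Even k ∨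
      (∀ G : SimpleGraph (Fin n), VertexTransitive G → RegularOfDegree G (k + 1) → P G) ∨
      ((∀ q : ℕ, Odd q → q ∣ n → q ≤ k) ∧
        ∀ G : SimpleGraph (Fin n), RegularOfDegree G k → P G))
    (hout : ∀ (d : ℕ) (G : SimpleGraph (Fin n)),
      (d + 1 = k ∨ (Odd (n - k) ∧ d + 2 = k)) → VertexTransitive G → RegularOfDegree G d → ¬ P G) :
    Evasive n P := by
  refine evasive_of_not_GP P hmono hiso fun hGP => ?_
  refine no_GP (by omega) hGP (k - 1) (by omega) ?_
  intro A _ _ hA S hS
  classical
  have e : A ≃ Fin n := Fintype.equivFinOfCardEq hA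
  rw [Nat.sub_add_cancel hk]
  constructor
  · rintro ⟨e', he'⟩
    by_contra hlt
    push Not at hlt
    obtain ⟨S', h1, h2, h3⟩ := up k (by rw [hA]; exact hkn) S hS hlt
    rw [hA] at h3
    refine hout S'.card ((cay S').map e'.toEmbedding) h3 ((cay_VT h2).map e')
      ((cay_Reg h2).map e') ?_
    exact hmono _ _ (SimpleGraph.map_monotone _ (cay_mono h1)) he'
  · intro h
    obtain ⟨S', h1, h2, h3⟩ := down k _ S rfl hS h
    rcases h3 with h3 | ⟨h3, h4⟩
    · refine ⟨e, hmono _ _ (SimpleGraph.map_monotone _ (cay_mono h1)) ?_⟩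
      refine hin _ ((cay_VT h2).map e) ?_
      rw [← h3]
      exact (cay_Reg h2).map e
    · rcases hin' with h5 | h5 | ⟨h5, h6⟩
      · exact absurd h3 (Nat.not_odd_iff_even.2 h5)
      · refine ⟨e, hmono _ _ (SimpleGraph.map_monotone _ (cay_mono h1)) ?_⟩
        refine h5 _ ((cay_VT h2).map e) ?_
        rw [← h4]
        exact (cay_Reg h2).map e
      · obtain ⟨F, h7, h8⟩ := odd_case hS h3 h
          (exists_even hS h (by rw [hA]; exact h5))
        exact ⟨e, hmono _ _ (SimpleGraph.map_monotone _ h7) (h6 _ (h8.map e))⟩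

theorem reg_copies (k : ℕ) : Reg (DisjointCopies.copies k (SimpleGraph.pathGraph 2)) 1 := by
  rintro ⟨i, b⟩
  have h : (DisjointCopies.copies k (SimpleGraph.pathGraph 2)).neighborSet (i, b) =
      {(i, b + 1)} := by
    ext ⟨j, c⟩
    rw [SimpleGraph.mem_neighborSet, Set.mem_singleton_iff]
    change (i = j ∧ (SimpleGraph.pathGraph 2).Adj b c) ↔ _
    rw [SimpleGraph.pathGraph_adj, Prod.mk.injEq]
    have h1 : ∀ b c : Fin 2, (b.val + 1 = c.val ∨ c.val + 1 = b.val) ↔ c = b + 1 := by decide
    rw [h1, eq_comm]
  rw [h, Set.ncard_singleton]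

theorem bot_reg (n : ℕ) : RegularOfDegree (⊥ : SimpleGraph (Fin n)) 0 := by
  intro v
  have h : (⊥ : SimpleGraph (Fin n)).neighborSet v = ∅ := by
    ext x
    simp
  rw [h, Set.ncard_empty]

theorem bot_VT (n : ℕ) : VertexTransitive (⊥ : SimpleGraph (Fin n)) := by
  have h : VT (⊥ : SimpleGraph (Fin n)) := by
    apply VT_of
    intro u v
    exact ⟨Equiv.swap u v, fun x y => by simp, Equiv.swap_apply_left u v⟩
  exact h

/-- The criterion for `n` even and `k` odd. -/
theorem criterion_odd (n k : ℕ) (hkn : k < n) (hne : Even n) (hko : Odd k)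
    (P : SimpleGraph (Fin n) → Prop)
    (hmono : ∀ G H : SimpleGraph (Fin n), G ≤ H → P G → P H)
    (hiso : ∀ (σ : Fin n ≃ Fin n) (G : SimpleGraph (Fin n)), P G → P (G.map σ.toEmbedding))
    (hin : ∀ G : SimpleGraph (Fin n), RegularOfDegree G k → P G)
    (hout : ∀ G : SimpleGraph (Fin n),
      VertexTransitive G → RegularOfDegree G (k - 1) → ¬ P G)
    (hout' : ∀ G : SimpleGraph (Fin n),
      VertexTransitive G → RegularOfDegree G (k - 2) → ¬ P G)
    (hodd : ∀ G : SimpleGraph (Fin n), VertexTransitive G →
      (∃ U : Finset (Fin n), Odd U.card ∧ ∀ u ∈ U, ∀ v, G.Adj u v → v ∈ U) → ¬ P G) :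
    Evasive n P := by
  obtain ⟨r, hr⟩ := hko
  rcases Nat.eq_zero_or_pos r with hr0 | hr0
  · -- `k = 1`
    obtain ⟨l, hl⟩ := hne
    have hn2 : n = l * 2 := by omega
    refine DisjointCopies.result n l 2 Nat.prime_two.isPrimePow hn2 (SimpleGraph.pathGraph 2)
      (Or.inl ⟨Nat.prime_two, rfl⟩) P hmono hiso (Or.inl ⟨?_, ?_⟩)
    · refine hout ⊥ (bot_VT n) ?_
      have hk1 : k - 1 = 0 := by omega
      rw [hk1]
      exact bot_reg n
    · refine ⟨finProdFinEquiv.trans (finCongr hn2.symm), hin _ ?_⟩
      have hk1 : k = 1 := by omega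
      rw [hk1]
      exact (reg_copies l).map _
  · refine evasive_of_not_GP P hmono hiso fun hGP => ?_
    have : NeZero n := ⟨by omega⟩
    have e : ZMod n ≃ Fin n := Fintype.equivFinOfCardEq (ZMod.card n)
    refine odd_rel hne hr0 (by omega) hGP ?_
    intro S hS
    rw [← hr]
    constructor
    · rintro ⟨e', he'⟩
      constructor
      · by_contra hlt
        push Not at hlt
        obtain ⟨S', h1, h2, h3⟩ := up k (by rw [ZMod.card]; exact hkn) S hS hlt
        have h6 := hmono _ _ (SimpleGraph.map_monotone _ (cay_mono h1)) he'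
        have h7 := (cay_Reg h2).map e'
        rcases h3 with h3 | ⟨-, h3⟩
        · have h8 : S'.card = k - 1 := by omega
          rw [h8] at h7
          exact hout _ ((cay_VT h2).map e') h7 h6
        · have h8 : S'.card = k - 2 := by omega
          rw [h8] at h7
          exact hout' _ ((cay_VT h2).map e') h7 h6
      · by_contra hcon
        push Not at hcon
        refine hodd _ ((cay_VT hS).map e') ?_ he'
        classical
        refine ⟨univ.filter fun x => e'.symm x ∈ oddSub (ZMod n), ?_, ?_⟩
        · have h1 : (univ.filter fun x => e'.symm x ∈ oddSub (ZMod n)).card =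
              Nat.card (oddSub (ZMod n)) := by
            have h0 : ((univ.filter fun x => e'.symm x ∈ oddSub (ZMod n) : Finset (Fin n)) :
                Set (Fin n)) = e' '' (oddSub (ZMod n) : Set (ZMod n)) := by
              ext x
              rw [Finset.coe_filter]
              constructor
              · rintro ⟨-, h⟩
                exact ⟨e'.symm x, h, e'.apply_symm_apply x⟩
              · rintro ⟨y, hy, rfl⟩
                refine ⟨mem_univ _, ?_⟩
                rw [e'.symm_apply_apply]
                exact hy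
            rw [← Set.ncard_coe_finset, h0, Set.ncard_image_of_injective _ e'.injective]
            rfl
          rw [h1]
          exact oddSub_card
        · intro u hu v huv
          rw [mem_filter] at hu ⊢
          refine ⟨mem_univ _, ?_⟩
          rw [SimpleGraph.map_adj] at huv
          obtain ⟨a, b, hab, rfl, rfl⟩ := huv
          rw [cay_adj hS] at hab
          have h2 := hcon _ hab
          have h3 : a ∈ oddSub (ZMod n) := by simpa using hu.2
          have h4 : b = (b - a) + a := by abel
          have h5 : b ∈ oddSub (ZMod n) := by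
            rw [h4]
            exact (oddSub (ZMod n)).add_mem h2 h3
          simpa using h5
    · rintro ⟨h1, h2⟩
      obtain ⟨F, h7, h8⟩ := odd_case hS ⟨r, hr⟩ h1 h2
      exact ⟨e, hmono _ _ (SimpleGraph.map_monotone _ h7) (hin _ (h8.map e))⟩

/-- **The criterion.** Let `1 ≤ k < n`. A monotone isomorphism-invariant property `P` is evasive if it
holds for the vertex-transitive `k`-regular graphs, fails for the vertex-transitive graphs that are
regular of degree `k - 1` or, if `n - k` is odd, `k - 2`, and one of the following is true: `k` is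
even; `P` holds for the vertex-transitive `(k + 1)`-regular graphs; `P` holds for all `k`-regular
graphs and either no odd divisor of `n` is larger than `k`, or `n` is even and `P` fails for the
vertex-transitive graphs with an odd set of vertices that is closed under adjacency. -/
theorem result (n k : ℕ) (hk : 1 ≤ k) (hkn : k < n) (P : SimpleGraph (Fin n) → Prop)
    (hmono : ∀ G H : SimpleGraph (Fin n), G ≤ H → P G → P H)
    (hiso : ∀ (σ : Fin n ≃ Fin n) (G : SimpleGraph (Fin n)), P G → P (G.map σ.toEmbedding))
    (hin : ∀ G : SimpleGraph (Fin n), VertexTransitive G → RegularOfDegree G k → P G)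
    (hout : ∀ (d : ℕ) (G : SimpleGraph (Fin n)),
      (d + 1 = k ∨ (Odd (n - k) ∧ d + 2 = k)) → VertexTransitive G → RegularOfDegree G d → ¬ P G)
    (hcase : Even k ∨
      (∀ G : SimpleGraph (Fin n), VertexTransitive G → RegularOfDegree G (k + 1) → P G) ∨
      ((∀ G : SimpleGraph (Fin n), RegularOfDegree G k → P G) ∧
        ((∀ q : ℕ, Odd q → q ∣ n → q ≤ k) ∨
          (Even n ∧ ∀ G : SimpleGraph (Fin n), VertexTransitive G →
            (∃ U : Finset (Fin n), Odd U.card ∧ ∀ u ∈ U, ∀ v, G.Adj u v → v ∈ U) → ¬ P G)))) :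
    Evasive n P := by
  rcases hcase with h | h | ⟨h, h' | ⟨h', h''⟩⟩
  · exact criterion n k hk hkn P hmono hiso hin (Or.inl h) hout
  · exact criterion n k hk hkn P hmono hiso hin (Or.inr (Or.inl h)) hout
  · exact criterion n k hk hkn P hmono hiso hin (Or.inr (Or.inr ⟨h', h⟩)) hout
  · rcases Nat.even_or_odd k with he | ho
    · exact criterion n k hk hkn P hmono hiso hin (Or.inl he) hout
    · refine criterion_odd n k hkn h' ho P hmono hiso h
        (fun G hG hG' => hout (k - 1) G (Or.inl (by omega)) hG hG') ?_ h''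
      intro G hG hG'
      rcases Nat.lt_or_ge 1 k with h1 | h1
      · refine hout (k - 2) G (Or.inr ⟨?_, by omega⟩) hG hG'
        obtain ⟨a, ha⟩ := h'
        obtain ⟨b, hb⟩ := ho
        exact ⟨a - b - 1, by omega⟩
      · refine hout (k - 2) G (Or.inl (by omega)) hG hG'

/-! ### Factors and degree-constrained subgraphs -/

/-- The handshake lemma. -/
theorem handshake {n : ℕ} (F : SimpleGraph (Fin n)) :
    ∑ v : Fin n, (F.neighborSet v).ncard = 2 * F.edgeSet.ncard := by
  classical
  have h1 := F.sum_degrees_eq_twice_card_edges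
  have h2 : ∀ v, (F.neighborSet v).ncard = F.degree v := by
    intro v
    rw [← SimpleGraph.card_neighborSet_eq_degree, Set.ncard_eq_toFinset_card',
      Set.toFinset_card]
  rw [Finset.sum_congr rfl fun v _ => h2 v, h1, ← SimpleGraph.coe_edgeFinset,
    Set.ncard_coe_finset]

/-- A set of odd size that is closed under adjacency contains a vertex of even degree. -/
theorem closed_odd {n : ℕ} (F : SimpleGraph (Fin n)) (U : Finset (Fin n)) (hU : Odd U.card)
    (hcl : ∀ u ∈ U, ∀ v, F.Adj u v → v ∈ U) (hdeg : ∀ v, Odd (F.neighborSet v).ncard) : False := by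
  let F' : SimpleGraph (Fin n) :=
    { Adj := fun x y => F.Adj x y ∧ x ∈ U ∧ y ∈ U
      symm := ⟨fun _ _ h => ⟨h.1.symm, h.2.2, h.2.1⟩⟩
      loopless := ⟨fun _ h => h.1.ne rfl⟩ }
  have h1 : ∀ v, (F'.neighborSet v).ncard = if v ∈ U then (F.neighborSet v).ncard else 0 := by
    intro v
    split_ifs with h
    · congr 1
      ext x
      rw [SimpleGraph.mem_neighborSet, SimpleGraph.mem_neighborSet]
      exact ⟨fun h' => h'.1, fun h' => ⟨h', h, hcl v h x h'⟩⟩
    · have h2 : F'.neighborSet v = ∅ := by
        ext x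
        rw [SimpleGraph.mem_neighborSet]
        exact ⟨fun h' => absurd h'.2.1 h, fun h' => absurd h' (Set.notMem_empty x)⟩
      rw [h2, Set.ncard_empty]
  have h2 := handshake F'
  rw [Finset.sum_congr rfl fun v _ => h1 v, Finset.sum_ite_mem, Finset.univ_inter] at h2
  have h3 : Odd (∑ v ∈ U, (F.neighborSet v).ncard) := by
    rw [Finset.odd_sum_iff_odd_card_odd, Finset.filter_true_of_mem (fun v _ => hdeg v)]
    exact hU
  rw [h2] at h3
  exact (Nat.not_odd_iff_even.2 (even_two_mul _)) h3

theorem hasSubgraph_mono {n : ℕ} (D : Set ℕ) (m : ℕ) (G H : SimpleGraph (Fin n)) (h : G ≤ H)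
    (hG : HasSubgraph D m G) : HasSubgraph D m H := by
  obtain ⟨F, h1, h2⟩ := hG
  exact ⟨F, h1.trans h, h2⟩

theorem nbr_map {n : ℕ} (σ : Fin n ≃ Fin n) (F : SimpleGraph (Fin n)) (w : Fin n) :
    ((F.map σ.toEmbedding).neighborSet w).ncard = (F.neighborSet (σ.symm w)).ncard := by
  have h1 : (F.map σ.toEmbedding).neighborSet w = σ '' (F.neighborSet (σ.symm w)) := by
    ext x
    rw [SimpleGraph.mem_neighborSet, SimpleGraph.map_adj]
    constructor
    · rintro ⟨u, v, huv, rfl, rfl⟩
      refine ⟨v, ?_, rfl⟩
      rw [SimpleGraph.mem_neighborSet]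
      simpa using huv
    · rintro ⟨v, hv, rfl⟩
      rw [SimpleGraph.mem_neighborSet] at hv
      exact ⟨_, v, hv, by simp, rfl⟩
  rw [h1, Set.ncard_image_of_injective _ σ.injective]

theorem hasSubgraph_iso {n : ℕ} (D : Set ℕ) (m : ℕ) (σ : Fin n ≃ Fin n) (G : SimpleGraph (Fin n))
    (hG : HasSubgraph D m G) : HasSubgraph D m (G.map σ.toEmbedding) := by
  obtain ⟨F, h1, h2, h3⟩ := hG
  refine ⟨F.map σ.toEmbedding, SimpleGraph.map_monotone _ h1, ?_, ?_⟩
  · intro v
    rw [nbr_map]
    exact h2 _
  · have h4 : 2 * (F.map σ.toEmbedding).edgeSet.ncard = 2 * F.edgeSet.ncard := by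
      rw [← handshake, ← handshake]
      refine Fintype.sum_equiv σ.symm _ _ ?_
      intro x
      exact nbr_map σ F x
    omega

/-- Degree-constrained subgraphs. -/
theorem subgraphs (n k m : ℕ) (D : Set ℕ) (hk : 1 ≤ k) (hkn : k < n) (hkD : k ∈ D)
    (hkD' : Even k ∨ k + 1 ∈ D ∨ (∀ q : ℕ, Odd q → q ∣ n → q ≤ k) ∨
      (Even n ∧ ∀ d ∈ D, Odd d))
    (hm : 2 * m ≤ k * n) (hD : ∀ d ∈ D, d < k → d * n < 2 * m) :
    Evasive n (HasSubgraph D m) := by
  have hreg : ∀ (j : ℕ) (G : SimpleGraph (Fin n)), k ≤ j → j ∈ D → RegularOfDegree G j →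
      HasSubgraph D m G := by
    intro j G hkj hj hG
    refine ⟨G, le_refl _, fun v => by rw [hG v]; exact hj, ?_⟩
    have h1 := handshake G
    rw [Finset.sum_congr rfl fun v _ => hG v, sum_const, card_univ, Fintype.card_fin,
      smul_eq_mul] at h1
    have h2 : k * n ≤ n * j := by
      rw [mul_comm]
      exact Nat.mul_le_mul_left n hkj
    omega
  have hout : ∀ (d : ℕ) (G : SimpleGraph (Fin n)), d < k →
      RegularOfDegree G d → ¬ HasSubgraph D m G := by
    rintro d G hdk hG ⟨F, h1, h2, h3⟩
    have h4 := handshake F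
    have h5 : ∀ v : Fin n, (F.neighborSet v).ncard * n < 2 * m := by
      intro v
      apply hD _ (h2 v)
      refine lt_of_le_of_lt ?_ hdk
      rw [← hG v]
      exact Set.ncard_le_ncard (fun x hx => h1 hx) (Set.toFinite _)
    have h6 : ∑ v : Fin n, (F.neighborSet v).ncard * n < ∑ _v : Fin n, 2 * m :=
      Finset.sum_lt_sum_of_nonempty ⟨⟨0, by omega⟩, mem_univ _⟩ fun v _ => h5 v
    rw [← Finset.sum_mul, h4, sum_const, card_univ, Fintype.card_fin, smul_eq_mul] at h6
    have h7 : n * (2 * F.edgeSet.ncard) < n * (2 * m) := by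
      rw [mul_comm]
      exact h6
    have h8 := Nat.lt_of_mul_lt_mul_left h7
    omega
  refine result n k hk hkn (HasSubgraph D m) (hasSubgraph_mono D m) (hasSubgraph_iso D m)
    (fun G _ hG => hreg k G le_rfl hkD hG) (fun d G hd _ hG => hout d G (by omega) hG) ?_
  rcases hkD' with h | h | h | ⟨h, h'⟩
  · exact Or.inl h
  · exact Or.inr (Or.inl fun G _ hG => hreg (k + 1) G (Nat.le_succ k) h hG)
  · exact Or.inr (Or.inr ⟨fun G hG => hreg k G le_rfl hkD hG, Or.inl h⟩)
  · refine Or.inr (Or.inr ⟨fun G hG => hreg k G le_rfl hkD hG, Or.inr ⟨h, ?_⟩⟩)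
    rintro G - ⟨U, hU, hcl⟩ ⟨F, h1, h2, -⟩
    exact closed_odd F U hU (fun u hu v huv => hcl u hu v (h1 huv)) fun v => h' _ (h2 v)

/-- Having an `[a, b]`-factor, `1 ≤ a ≤ b`, `a < n`, is evasive, if `a < b` or `a n` is even; the case
`a = b = k` is the property of having a `k`-factor. -/
theorem factors (n a b : ℕ) (ha : 1 ≤ a) (hab : a ≤ b) (han : a < n)
    (hev : a < b ∨ Even (a * n)) : Evasive n (HasFactor a b) := by
  have h1 : HasFactor (n := n) a b = HasSubgraph (Set.Icc a b) 0 := by
    funext G
    apply propext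
    constructor
    · rintro ⟨F, h2, h3⟩
      exact ⟨F, h2, fun v => h3 v, Nat.zero_le _⟩
    · rintro ⟨F, h2, h3, -⟩
      exact ⟨F, h2, fun v => h3 v⟩
  rw [h1]
  refine subgraphs n a 0 (Set.Icc a b) ha han ⟨le_refl _, hab⟩ ?_ (by omega) ?_
  · rcases Nat.even_or_odd a with h | h
    · exact Or.inl h
    · rcases Nat.lt_or_ge a b with h' | h'
      · exact Or.inr (Or.inl ⟨by omega, h'⟩)
      · have hab' : a = b := le_antisymm hab h'
        subst hab'
        refine Or.inr (Or.inr (Or.inr ⟨?_, ?_⟩))
        · have h4 := hev.resolve_left (lt_irrefl _)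
          rw [Nat.even_mul] at h4
          exact h4.resolve_left (Nat.not_even_iff_odd.2 h)
        · rintro d ⟨h5, h6⟩
          have : d = a := le_antisymm h6 h5
          rw [this]
          exact h
  · rintro d ⟨h2, -⟩ h
    exact absurd h (not_lt.2 h2)

end Pool.Agent.Results.MP_257582_lc.DegreeFactors
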